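import Pool.Agent.UL5.Stmts2
import Pool.Agent.Helper90_UL3.ADJ

/-!
Squad UL5 (MP_c7c9bf_co), row DGD: the double cone is good.
-/

set_option autoImplicit false

namespace Pool.Agent.UL5.H27

open MeasureTheory Set Pool.Agent.UL3 Pool.Agent.UL4

theorem plane_null : (volume : Measure E3) {x : E3 | x 2 = 0} = 0 := by
  have h1 : {x : E3 | x 2 = 0} =
      ((LinearMap.ker (EuclideanSpace.proj (2 : Fin 3) : E3 →L[ℝ] ℝ).toLinearMap :
        Submodule ℝ E3) : Set E3) := by
    ext x
    simp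
  rw [h1]
  refine Measure.addHaar_submodule _ _ fun h => ?_
  rw [LinearMap.ker_eq_top] at h
  have h2 := congrArg (fun f : E3 →ₗ[ℝ] ℝ => f (EuclideanSpace.single (2 : Fin 3) (1 : ℝ))) h
  simp at h2

theorem vol_two {C : Set (ℝ × ℝ)} (h1 : SB (dco C)) (h2 : CB (con C)) (h3 : con C ⊆ dco C) :
    2 * V (con C) ≤ V (dco C) := by
  have hm : MeasurableSet (con C) := h2.cpt.measurableSet
  have hm' : MeasurableSet ((fun x : E3 => -x) ⁻¹' con C) := hm.preimage (by fun_prop)
  have hv : (volume : Measure E3) ((fun x : E3 => -x) ⁻¹' con C) = volume (con C) :=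
    Measure.measure_preimage_neg volume (con C)
  have h4 : (volume : Measure E3) (con C ∩ (fun x : E3 => -x) ⁻¹' con C) = 0 := by
    refine measure_mono_null ?_ plane_null
    rintro x ⟨hx, hx'⟩
    have h5 : 0 ≤ x 2 := hx.1
    have h6 : 0 ≤ (-x) 2 := hx'.1
    have h7 : (-x) 2 = - x 2 := rfl
    show x 2 = 0
    linarith
  have h5 := measure_union_add_inter (μ := (volume : Measure E3)) (con C) hm'
  rw [h4, add_zero, hv] at h5
  have h6 : (volume : Measure E3) (con C) + volume (con C) ≤ volume (dco C) := by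
    rw [← h5]
    refine measure_mono (union_subset h3 fun x hx => ?_)
    have := h1.sym _ (h3 hx)
    rwa [neg_neg] at this
  have h7 : (volume : Measure E3) (dco C) ≠ ⊤ := h1.cpt.measure_lt_top.ne
  have h8 : (volume : Measure E3) (con C) ≠ ⊤ := h2.cpt.measure_lt_top.ne
  have h9 := ENNReal.toReal_mono h7 h6
  rw [ENNReal.toReal_add h8 h8] at h9
  unfold V Measure.real
  linarith

theorem dgd (sel : SelStmt) (lat : LatStmt) (dcb : DcbStmt) : DgdStmt := by
  intro C hC
  obtain ⟨u, q, hu, hu', h1, h2, h3⟩ := sel C hC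
  obtain ⟨v, hv, hadm, hdt⟩ := lat C u q hC hu hu' h1 h2 h3
  obtain ⟨d1, d2, d3, d4, -⟩ := dcb C hC
  refine ⟨v, hv, fun n hn => Pool.Agent.UL3.H90.adj _ v d1 hadm n hn, ?_⟩
  have h5 := vol_two d1 d2 d3
  rw [d4] at h5
  rw [hdt]
  linarith

end Pool.Agent.UL5.H27
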