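import Pool.Agent.UL5.Stmts

/-!
Squad UL5 (MP_c7c9bf_co), row HMX: the function `Hm`.
-/

set_option autoImplicit false

namespace Pool.Agent.UL5.H27

open MeasureTheory Set Pool.Agent.UL3 Pool.Agent.UL4

theorem crc : Continuous fun p : (ℝ × ℝ) × (ℝ × ℝ) => cr p.1 p.2 := by
  unfold cr
  fun_prop

theorem crc' (u : ℝ × ℝ) : Continuous fun w : ℝ × ℝ => cr u w := by
  unfold cr
  fun_prop

theorem le_hm {C : Set (ℝ × ℝ)} (h : PB C) (u : ℝ × ℝ) {w : ℝ × ℝ} (hw : w ∈ C) :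
    cr u w ≤ Hm C u :=
  le_csSup (h.cpt.image (crc' u)).bddAbove ⟨w, hw, rfl⟩

theorem abs_le_hm {C : Set (ℝ × ℝ)} (h : PB C) (u : ℝ × ℝ) {w : ℝ × ℝ} (hw : w ∈ C) :
    |cr u w| ≤ Hm C u := by
  rw [abs_le]
  refine ⟨?_, le_hm h u hw⟩
  have h1 := le_hm h u (h.sym w hw)
  have h2 : cr u (-w) = - cr u w := by
    unfold cr
    simp
    ring
  linarith

theorem ex_hm {C : Set (ℝ × ℝ)} (h : PB C) (u : ℝ × ℝ) : ∃ w ∈ C, cr u w = Hm C u :=
  (h.cpt.image (crc' u)).sSup_mem ((h.int.mono interior_subset).image _)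

theorem hmx : HmxStmt := by
  intro C h
  refine ⟨fun u w hw => abs_le_hm h u hw, ex_hm h, h.cpt.continuous_sSup crc,
    fun u hu => ?_, fun t u ht => ?_⟩
  · obtain ⟨p, hp⟩ := h.int
    rw [mem_interior_iff_mem_nhds] at hp
    have hpos : 0 < cr u (-u.2, u.1) := by
      have h0 : u.1 ≠ 0 ∨ u.2 ≠ 0 := by
        by_contra hn
        push Not at hn
        exact hu (Prod.ext hn.1 hn.2)
      have h1 : cr u (-u.2, u.1) = u.1 ^ 2 + u.2 ^ 2 := by
        unfold cr
        ring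
      rw [h1]
      rcases h0 with h0 | h0
      · positivity
      · positivity
    have h1 : Continuous fun t : ℝ => p + t • ((-u.2, u.1) : ℝ × ℝ) := by fun_prop
    have h2 : (fun t : ℝ => p + t • ((-u.2, u.1) : ℝ × ℝ)) ⁻¹' C ∈ nhds (0 : ℝ) := by
      refine h1.continuousAt.preimage_mem_nhds ?_
      rw [zero_smul, add_zero]
      exact hp
    obtain ⟨ε, hε, hball⟩ := Metric.mem_nhds_iff.1 h2
    have h3 : (p + (ε / 2) • ((-u.2, u.1) : ℝ × ℝ)) ∈ C := hball (by
      rw [Metric.mem_ball, dist_zero_right, Real.norm_eq_abs, abs_of_pos (by linarith)]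
      linarith)
    have h4 := abs_le_hm h u (mem_of_mem_nhds hp)
    have h5 := abs_le_hm h u h3
    have h6 : cr u (p + (ε / 2) • ((-u.2, u.1) : ℝ × ℝ)) =
        cr u p + ε / 2 * cr u (-u.2, u.1) := by
      unfold cr
      simp
      ring
    rw [h6] at h5
    have h7 := abs_le.1 h4
    have h8 := abs_le.1 h5
    have h9 : 0 < ε / 2 * cr u (-u.2, u.1) := by positivity
    linarith [h7.1, h8.2]
  · have hs : ∀ w, cr (t • u) w = t * cr u w := fun w => by
      unfold cr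
      simp
      ring
    obtain ⟨w, hw, hw'⟩ := ex_hm h (t • u)
    obtain ⟨v, hv, hv'⟩ := ex_hm h u
    refine le_antisymm ?_ ?_
    · rw [← hw', hs]
      exact mul_le_mul_of_nonneg_left (le_hm h u hw) ht
    · rw [← hv', ← hs]
      exact le_hm h (t • u) hv

end Pool.Agent.UL5.H27
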